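import Mathlib

/-!
# Reading patterns (part P)
-/

namespace RC

open Finset

namespace Pat

variable {n d : ℕ}

/-- number of elements of `A` in the list `g` -/
def cnt (A : Finset (Fin n)) (g : Fin d → Fin n) : ℕ := (univ.filter fun i : Fin d => g i ∈ A).card

theorem exp_cnt (A : Finset (Fin n)) (θ : ℝ) (g : Fin d → Fin n) :
    Real.exp (θ * cnt A g) = ∏ i : Fin d, (if g i ∈ A then Real.exp θ else 1) := by
  rw [Finset.prod_ite, Finset.prod_const, Finset.prod_const_one, mul_one, ← Real.exp_nat_mul, cnt]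
  congr 1
  ring

theorem moment (A : Finset (Fin n)) (θ : ℝ) :
    ∑ g : Fin d → Fin n, Real.exp (θ * cnt A g) =
      ((n : ℝ) + A.card * (Real.exp θ - 1)) ^ d := by
  have h := Finset.prod_univ_sum (fun _ : Fin d => (univ : Finset (Fin n)))
    (fun (_ : Fin d) (x : Fin n) => if x ∈ A then Real.exp θ else (1 : ℝ))
  rw [Fintype.piFinset_univ] at h
  simp_rw [exp_cnt]
  rw [← h, Finset.prod_const, Finset.card_univ, Fintype.card_fin]
  congr 1
  rw [Finset.sum_ite, Finset.sum_const, Finset.sum_const, nsmul_eq_mul, nsmul_eq_mul]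
  have h1 : (univ.filter fun x : Fin n => x ∈ A) = A := by ext; simp
  have h2 : ((univ.filter fun x : Fin n => ¬ x ∈ A).card : ℝ) = n - A.card := by
    have := Finset.card_filter_add_card_filter_not (s := (univ : Finset (Fin n))) (fun x => x ∈ A)
    rw [h1, Finset.card_univ, Fintype.card_fin] at this
    have : (A.card : ℝ) + ((univ.filter fun x : Fin n => ¬ x ∈ A).card : ℝ) = n := by
      exact_mod_cast this
    linarith
  rw [h1, h2]
  ring

theorem moment_le (hn : 0 < n) (A : Finset (Fin n)) (θ : ℝ) (hθ : |θ| ≤ 1) :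
    ∑ g : Fin d → Fin n, Real.exp (θ * cnt A g) ≤
      (n : ℝ) ^ d * Real.exp ((d : ℝ) / n * A.card * (θ + θ ^ 2)) := by
  have hn' : (0 : ℝ) < n := by exact_mod_cast hn
  rw [moment]
  have ha : (A.card : ℝ) ≤ n := by
    have := Finset.card_le_univ A
    rw [Fintype.card_fin] at this
    exact_mod_cast this
  have h1 : Real.exp θ - 1 ≤ θ + θ ^ 2 := by
    have := (abs_le.1 (Real.abs_exp_sub_one_sub_id_le hθ)).2
    linarith
  have h2 : (n : ℝ) + A.card * (Real.exp θ - 1) ≤ n * Real.exp ((A.card : ℝ) / n * (θ + θ ^ 2)) := by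
    have h3 := Real.add_one_le_exp ((A.card : ℝ) / n * (θ + θ ^ 2))
    have h4 : (n : ℝ) + A.card * (Real.exp θ - 1) ≤ n * ((A.card : ℝ) / n * (θ + θ ^ 2) + 1) := by
      have : (n : ℝ) * ((A.card : ℝ) / n * (θ + θ ^ 2) + 1) = n + A.card * (θ + θ ^ 2) := by
        field_simp
        ring
      rw [this]
      have : (A.card : ℝ) * (Real.exp θ - 1) ≤ A.card * (θ + θ ^ 2) :=
        mul_le_mul_of_nonneg_left h1 (Nat.cast_nonneg _)
      linarith
    exact h4.trans (mul_le_mul_of_nonneg_left h3 hn'.le)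
  have h0 : 0 ≤ (n : ℝ) + A.card * (Real.exp θ - 1) := by
    have : -(1 : ℝ) ≤ Real.exp θ - 1 := by have := Real.exp_pos θ; linarith
    have h5 : (A.card : ℝ) * (-1) ≤ A.card * (Real.exp θ - 1) :=
      mul_le_mul_of_nonneg_left this (Nat.cast_nonneg _)
    linarith
  refine (pow_le_pow_left₀ h0 h2 d).trans (le_of_eq ?_)
  rw [mul_pow, ← Real.exp_nat_mul]
  congr 2
  ring

theorem markov (A : Finset (Fin n)) (θ T : ℝ) (P : Finset (Fin d → Fin n))
    (hP : ∀ g ∈ P, T ≤ θ * cnt A g) :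
    (P.card : ℝ) * Real.exp T ≤ ∑ g : Fin d → Fin n, Real.exp (θ * cnt A g) := by
  calc (P.card : ℝ) * Real.exp T = ∑ g ∈ P, Real.exp T := by rw [Finset.sum_const, nsmul_eq_mul]
    _ ≤ ∑ g ∈ P, Real.exp (θ * cnt A g) :=
        Finset.sum_le_sum fun g hg => Real.exp_le_exp.2 (hP g hg)
    _ ≤ _ := Finset.sum_le_univ_sum_of_nonneg fun g => (Real.exp_pos _).le

theorem upper (hn : 0 < n) (A : Finset (Fin n)) {ε b : ℝ} (hb : 0 ≤ b) (hε : 0 < ε) (hε1 : ε ≤ 1)
    (P : Finset (Fin d → Fin n))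
    (hP : ∀ g ∈ P, ε * (d : ℝ) * (A.card + b) ≤ (n : ℝ) * cnt A g - (d : ℝ) * A.card) :
    (P.card : ℝ) ≤ (n : ℝ) ^ d * Real.exp (-(ε ^ 2 / 4 * (d / n) * (A.card + b))) := by
  have hn' : (0 : ℝ) < n := by exact_mod_cast hn
  set θ : ℝ := ε / 2 with hθ
  have hθ1 : |θ| ≤ 1 := by rw [abs_of_nonneg (by positivity)]; linarith
  have h1 := markov A θ (θ * (d / n * A.card + ε * (d / n) * (A.card + b))) P (by
    intro g hg
    have h2 := hP g hg
    apply mul_le_mul_of_nonneg_left _ (by positivity)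
    have : (d : ℝ) / n * A.card + ε * (d / n) * (A.card + b) =
      (ε * (d : ℝ) * (A.card + b) + (d : ℝ) * A.card) / n := by field_simp; ring
    rw [this, div_le_iff₀ hn']
    linarith)
  have h3 := h1.trans (moment_le hn A θ hθ1)
  rw [← le_div_iff₀ (Real.exp_pos _), mul_div_assoc, ← Real.exp_sub] at h3
  refine h3.trans (mul_le_mul_of_nonneg_left (Real.exp_le_exp.2 ?_) (by positivity))
  have e : (d : ℝ) / n * A.card * (θ + θ ^ 2) - θ * (d / n * A.card + ε * (d / n) * (A.card + b))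
      = -(ε ^ 2 / 4 * (d / n) * (A.card + b)) - ε ^ 2 / 4 * (d / n) * b := by
    rw [hθ]; ring
  rw [e]
  have : 0 ≤ ε ^ 2 / 4 * ((d : ℝ) / n) * b := by positivity
  linarith

theorem lower (hn : 0 < n) (A : Finset (Fin n)) {ε b : ℝ} (hb : 0 ≤ b) (hε : 0 < ε) (hε1 : ε ≤ 1)
    (P : Finset (Fin d → Fin n))
    (hP : ∀ g ∈ P, (n : ℝ) * cnt A g - (d : ℝ) * A.card ≤ -(ε * (d : ℝ) * (A.card + b))) :
    (P.card : ℝ) ≤ (n : ℝ) ^ d * Real.exp (-(ε ^ 2 / 4 * (d / n) * (A.card + b))) := by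
  have hn' : (0 : ℝ) < n := by exact_mod_cast hn
  set θ : ℝ := ε / 2 with hθ
  have hθ0 : 0 ≤ θ := by positivity
  have hθ1 : |-θ| ≤ 1 := by rw [abs_neg, abs_of_nonneg (by positivity)]; linarith
  have h1 := markov A (-θ) (-θ * (d / n * A.card - ε * (d / n) * (A.card + b))) P (by
    intro g hg
    have h2 := hP g hg
    have h3 : (cnt A g : ℝ) ≤ d / n * A.card - ε * (d / n) * (A.card + b) := by
      have : (d : ℝ) / n * A.card - ε * (d / n) * (A.card + b) =
        ((d : ℝ) * A.card - ε * (d : ℝ) * (A.card + b)) / n := by field_simp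
      rw [this, le_div_iff₀ hn']
      linarith
    have := mul_le_mul_of_nonneg_left h3 hθ0
    linarith)
  have h3 := h1.trans (moment_le hn A (-θ) hθ1)
  rw [← le_div_iff₀ (Real.exp_pos _), mul_div_assoc, ← Real.exp_sub] at h3
  refine h3.trans (mul_le_mul_of_nonneg_left (Real.exp_le_exp.2 ?_) (by positivity))
  have e : (d : ℝ) / n * A.card * (-θ + (-θ) ^ 2) - -θ * (d / n * A.card - ε * (d / n) * (A.card + b))
      = -(ε ^ 2 / 4 * (d / n) * (A.card + b)) - ε ^ 2 / 4 * (d / n) * b := by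
    rw [hθ]; ring
  rw [e]
  have : 0 ≤ ε ^ 2 / 4 * ((d : ℝ) / n) * b := by positivity
  linarith

open Classical in
/-- lists that misjudge `A` -/
noncomputable def bad (d : ℕ) (ε b : ℝ) (A : Finset (Fin n)) : Finset (Fin d → Fin n) :=
  univ.filter fun g => ε * (d : ℝ) * (A.card + b) < |(n : ℝ) * cnt A g - (d : ℝ) * A.card|

theorem card_bad (hn : 0 < n) (A : Finset (Fin n)) {ε b : ℝ} (hb : 0 ≤ b) (hε : 0 < ε)
    (hε1 : ε ≤ 1) :
    ((bad d ε b A).card : ℝ) ≤ 2 * (n : ℝ) ^ d * Real.exp (-(ε ^ 2 / 4 * (d / n) * (A.card + b))) := by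
  classical
  have hsub : bad d ε b A ⊆
      (univ.filter fun g : Fin d → Fin n =>
        ε * (d : ℝ) * (A.card + b) ≤ (n : ℝ) * cnt A g - (d : ℝ) * A.card) ∪
      (univ.filter fun g : Fin d → Fin n =>
        (n : ℝ) * cnt A g - (d : ℝ) * A.card ≤ -(ε * (d : ℝ) * (A.card + b))) := by
    intro g hg
    simp only [bad, mem_filter, mem_univ, true_and, mem_union] at hg ⊢
    rcases lt_abs.1 hg with h | h
    · exact Or.inl h.le
    · exact Or.inr (by linarith)
  have h1 := (Finset.card_le_card hsub).trans (Finset.card_union_le _ _)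
  have h2 := upper (d := d) hn A hb hε hε1 (univ.filter fun g : Fin d → Fin n =>
        ε * (d : ℝ) * (A.card + b) ≤ (n : ℝ) * cnt A g - (d : ℝ) * A.card) (by simp)
  have h3 := lower (d := d) hn A hb hε hε1 (univ.filter fun g : Fin d → Fin n =>
        (n : ℝ) * cnt A g - (d : ℝ) * A.card ≤ -(ε * (d : ℝ) * (A.card + b))) (by simp)
  have h1' := (Nat.cast_le (α := ℝ)).2 h1
  rw [Nat.cast_add] at h1'
  linarith

end Pat

/-- Part P (Chernoff and a union bound). There is an assignment of `d` registers (with repetition)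
to each of the `n` processes such that for every set `A` of registers fewer than `b0` processes `p`
see a fraction of `A` in their list which deviates from `|A| / n` by more than `ε (|A| + b0) / n`.
The hypothesis is `b0 ≥ C (n/d) log n / ε^2`, with any absolute constant `C` you like (the
statement below uses 100). -/
theorem exists_pattern (n d b0 : ℕ) (ε : ℝ) (hn : 2 ≤ n) (hd : 0 < d) (hε : 0 < ε) (hε1 : ε ≤ 1)
    (hb : 100 * (n : ℝ) * Real.log n ≤ ε ^ 2 * d * b0) :
    ∃ Γ : Fin n → Fin d → Fin n, ∀ A : Finset (Fin n), ∀ B : Finset (Fin n),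
      (∀ p ∈ B, ε * (d : ℝ) * (A.card + b0) <
        |(n : ℝ) * (univ.filter fun i : Fin d => Γ p i ∈ A).card - (d : ℝ) * A.card|) →
      B.card < b0 := by
  classical
  have hn0 : 0 < n := by omega
  have hnR : (0 : ℝ) < n := by exact_mod_cast hn0
  have hn2 : (2 : ℝ) ≤ n := by exact_mod_cast hn
  have hlog : 0 < Real.log n := Real.log_pos (by linarith)
  have hb0 : 0 < b0 := by
    rcases Nat.eq_zero_or_pos b0 with h | h
    · subst h
      have : 0 < 100 * (n : ℝ) * Real.log n := by positivity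
      simp at hb
      linarith
    · exact h
  by_contra hcon
  push Not at hcon
  -- every pattern lies in one of the boxes
  set box : Finset (Fin n) → Finset (Fin n) → Finset (Fin n → Fin d → Fin n) := fun A B =>
    Fintype.piFinset fun p => if p ∈ B then Pat.bad d ε b0 A else univ with hbox
  have hcover : (univ : Finset (Fin n → Fin d → Fin n)) ⊆
      (univ : Finset (Finset (Fin n))).biUnion fun A =>
        (powersetCard b0 (univ : Finset (Fin n))).biUnion fun B => box A B := by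
    intro Γ _
    obtain ⟨A, B, hAB, hB⟩ := hcon Γ
    obtain ⟨B', hB', hcard⟩ := Finset.exists_subset_card_eq hB
    rw [Finset.mem_biUnion]
    refine ⟨A, mem_univ _, ?_⟩
    rw [Finset.mem_biUnion]
    refine ⟨B', by rw [mem_powersetCard]; exact ⟨subset_univ _, hcard⟩, ?_⟩
    rw [hbox, Fintype.mem_piFinset]
    intro p
    by_cases hp : p ∈ B'
    · rw [if_pos hp]
      simp only [Pat.bad, mem_filter, mem_univ, true_and]
      exact hAB p (hB' hp)
    · rw [if_neg hp]; exact mem_univ _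
  have hcardbox : ∀ A : Finset (Fin n), ∀ B ∈ powersetCard b0 (univ : Finset (Fin n)),
      (box A B).card = (Pat.bad d ε b0 A).card ^ b0 * (n ^ d) ^ (n - b0) := by
    intro A B hB
    rw [mem_powersetCard] at hB
    rw [hbox, Fintype.card_piFinset]
    rw [Finset.prod_congr rfl (g := fun p => if p ∈ B then (Pat.bad d ε b0 A).card else n ^ d)
      (by intro p _; by_cases hp : p ∈ B <;> simp [hp])]
    rw [Finset.prod_ite, Finset.prod_const, Finset.prod_const]
    congr 2
    · rw [← hB.2]; congr 1; ext; simp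
    · have := Finset.card_filter_add_card_filter_not (s := (univ : Finset (Fin n))) (fun x => x ∈ B)
      have h1 : (univ.filter fun x : Fin n => x ∈ B) = B := by ext; simp
      rw [h1, Finset.card_univ, Fintype.card_fin, hB.2] at this
      omega
  have hb0n : b0 ≤ n := by
    obtain ⟨A, B, _, hB⟩ := hcon (fun _ _ => ⟨0, hn0⟩)
    have := Finset.card_le_univ B
    rw [Fintype.card_fin] at this
    omega
  have hcount := Finset.card_le_card hcover
  rw [Finset.card_univ, Fintype.card_fun, Fintype.card_fun] at hcount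
  simp only [Fintype.card_fin] at hcount
  have hcount2 : (n ^ d) ^ n ≤ ∑ A : Finset (Fin n), ∑ B ∈ powersetCard b0 (univ : Finset (Fin n)),
      (Pat.bad d ε b0 A).card ^ b0 * (n ^ d) ^ (n - b0) := by
    refine hcount.trans (Finset.card_biUnion_le.trans (Finset.sum_le_sum fun A _ => ?_))
    exact Finset.card_biUnion_le.trans (Finset.sum_le_sum fun B hB => (hcardbox A B hB).le)
  simp_rw [Finset.sum_const, Finset.card_powersetCard, Finset.card_univ, Fintype.card_fin,
    smul_eq_mul] at hcount2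
  -- the bound for one set
  set q : ℝ := ((n : ℝ) ^ 25)⁻¹ with hq
  have hqpos : 0 < q := by positivity
  have hexp : ∀ m : ℕ, Real.exp (-(25 * Real.log n * m)) = q ^ m := by
    intro m
    rw [show -(25 * Real.log n * m) = (m : ℝ) * (-(25 * Real.log n)) by ring, Real.exp_nat_mul]
    congr 1
    rw [Real.exp_neg, hq]
    congr 1
    rw [show (25 : ℝ) * Real.log n = ((25 : ℕ) : ℝ) * Real.log n by norm_num, Real.exp_nat_mul,
      Real.exp_log hnR]
  have hbadpow : ∀ A : Finset (Fin n), ((Pat.bad d ε b0 A).card : ℝ) ^ b0 ≤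
      ((n : ℝ) ^ d) ^ b0 * (2 ^ b0 * q ^ (A.card + b0)) := by
    intro A
    have h1 := Pat.card_bad (d := d) hn0 A (ε := ε) (b := b0) (Nat.cast_nonneg _) hε hε1
    have h2 := pow_le_pow_left₀ (Nat.cast_nonneg _) h1 b0
    refine h2.trans ?_
    rw [mul_pow, mul_pow, ← Real.exp_nat_mul, ← hexp]
    have h3 : (b0 : ℝ) * -(ε ^ 2 / 4 * (d / n) * (A.card + b0)) ≤
        -(25 * Real.log n * ((A.card + b0 : ℕ) : ℝ)) := by
      have h4 : 25 * Real.log n ≤ ε ^ 2 / 4 * (d / n) * b0 := by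
        have : ε ^ 2 / 4 * ((d : ℝ) / n) * b0 = (ε ^ 2 * d * b0) / (4 * n) := by
          field_simp
        rw [this, le_div_iff₀ (by positivity)]
        linarith
      have h5 := mul_le_mul_of_nonneg_right h4 (Nat.cast_nonneg (α := ℝ) (A.card + b0))
      push_cast at h5 ⊢
      linarith
    have h6 := Real.exp_le_exp.2 h3
    have h7 : (0 : ℝ) ≤ 2 ^ b0 * ((n : ℝ) ^ d) ^ b0 := by positivity
    have h8 := mul_le_mul_of_nonneg_left h6 h7
    calc _ ≤ _ := h8
      _ = _ := by ring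
  have hmain : ((n : ℝ) ^ d) ^ n ≤ ∑ A : Finset (Fin n),
      (n.choose b0 : ℝ) * (((n : ℝ) ^ d) ^ n * (2 ^ b0 * q ^ (A.card + b0))) := by
    have h1 : (((n ^ d) ^ n : ℕ) : ℝ) ≤ ((∑ A : Finset (Fin n),
      n.choose b0 * ((Pat.bad d ε b0 A).card ^ b0 * (n ^ d) ^ (n - b0)) : ℕ) : ℝ) := by
      exact_mod_cast hcount2
    push_cast at h1
    refine h1.trans (Finset.sum_le_sum fun A _ => ?_)
    apply mul_le_mul_of_nonneg_left _ (Nat.cast_nonneg _)
    have h2 := mul_le_mul_of_nonneg_right (hbadpow A) (show (0 : ℝ) ≤ ((n : ℝ) ^ d) ^ (n - b0) by positivity)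
    refine h2.trans (le_of_eq ?_)
    have h3 : ((n : ℝ) ^ d) ^ n = ((n : ℝ) ^ d) ^ b0 * ((n : ℝ) ^ d) ^ (n - b0) := by
      rw [← pow_add]; congr 1; omega
    rw [h3]; ring
  have hsumA : ∑ A : Finset (Fin n), q ^ A.card = (q + 1) ^ n := by
    have := Finset.sum_pow_mul_eq_add_pow q 1 (univ : Finset (Fin n))
    simp only [one_pow, mul_one, Finset.powerset_univ, Finset.card_univ, Fintype.card_fin] at this
    exact this
  have hchoose : (n.choose b0 : ℝ) ≤ (n : ℝ) ^ b0 := by
    exact_mod_cast Nat.choose_le_pow n b0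
  have hM : (0 : ℝ) < ((n : ℝ) ^ d) ^ n := by positivity
  have hfin : ∑ A : Finset (Fin n),
      (n.choose b0 : ℝ) * (((n : ℝ) ^ d) ^ n * (2 ^ b0 * q ^ (A.card + b0))) =
      ((n : ℝ) ^ d) ^ n * ((n.choose b0 : ℝ) * (2 ^ b0 * q ^ b0) * (q + 1) ^ n) := by
    rw [← hsumA, Finset.mul_sum, Finset.mul_sum]
    refine Finset.sum_congr rfl fun A _ => ?_
    rw [pow_add]; ring
  rw [hfin] at hmain
  have h1 : 1 ≤ (n.choose b0 : ℝ) * (2 ^ b0 * q ^ b0) * (q + 1) ^ n := by
    by_contra hc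
    push Not at hc
    have := mul_lt_mul_of_pos_left hc hM
    linarith
  -- numerical contradiction
  have hnq : (n : ℝ) * q ≤ 1 / 4 ^ 2 := by
    rw [hq]
    have : (n : ℝ) ^ 25 = n * n ^ 24 := by ring
    rw [this, mul_inv, ← mul_assoc, mul_inv_cancel₀ hnR.ne', one_mul]
    rw [inv_le_comm₀ (by positivity) (by positivity)]
    calc ((1 : ℝ) / 4 ^ 2)⁻¹ = 2 ^ 4 := by norm_num
      _ ≤ 2 ^ 24 := by norm_num
      _ ≤ (n : ℝ) ^ 24 := pow_le_pow_left₀ (by norm_num) hn2 24
  have hq1 : (q + 1) ^ n ≤ 2 := by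
    have h2 : (q + 1) ^ n ≤ Real.exp (n * q) := by
      rw [Real.exp_nat_mul]
      exact pow_le_pow_left₀ (by positivity) (Real.add_one_le_exp q) n
    have h3 : Real.exp (n * q) ≤ Real.exp (Real.log 2) := by
      apply Real.exp_le_exp.2
      have := Real.log_two_gt_d9
      have : (1 : ℝ) / 4 ^ 2 ≤ 0.6 := by norm_num
      linarith
    rw [Real.exp_log (by norm_num)] at h3
    exact h2.trans h3
  have h2 : (n.choose b0 : ℝ) * (2 ^ b0 * q ^ b0) ≤ 1 / 8 := by
    have h3 : (n.choose b0 : ℝ) * (2 ^ b0 * q ^ b0) ≤ (2 * (n * q)) ^ b0 := by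
      have := mul_le_mul_of_nonneg_right hchoose (show (0 : ℝ) ≤ 2 ^ b0 * q ^ b0 by positivity)
      refine this.trans (le_of_eq ?_)
      rw [mul_pow, mul_pow]; ring
    have h4 : (2 * ((n : ℝ) * q)) ^ b0 ≤ (1 / 8) ^ b0 :=
      pow_le_pow_left₀ (by positivity) (by norm_num at hnq ⊢; linarith) b0
    have h5 : ((1 : ℝ) / 8) ^ b0 ≤ 1 / 8 := by
      calc ((1 : ℝ) / 8) ^ b0 ≤ (1 / 8) ^ 1 := pow_le_pow_of_le_one (by norm_num) (by norm_num) hb0
        _ = 1 / 8 := by norm_num
    linarith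
  have h3 : (n.choose b0 : ℝ) * (2 ^ b0 * q ^ b0) * (q + 1) ^ n ≤ 1 / 8 * 2 :=
    mul_le_mul h2 hq1 (by positivity) (by norm_num)
  linarith

end RC
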