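import Mathlib
import Pool.Agent.H66.RC.Pattern
import Pool.Agent.H25.RC.Par

/-!
# Choice of the parameters of stage 1
-/

namespace RC.SOne

open Finset

/-- the arithmetic of the parameter choice -/
theorem exists_par (n : ℕ) (y L : ℝ) (hL : L = Real.log n) (hy0 : 0 < y) (hy : y ^ 4 = n)
    (hL7 : 7 ≤ L) (hyL : 10 ^ 30 * L ^ 8 ≤ y) :
    ∃ p : Par n, ∃ x : ℝ, p.OK x ∧ ∃ K : ℕ, 1 ≤ K ∧ K ^ 3 ≤ n ∧ 11 / 10 ≤ (K : ℝ) * p.V p.B ∧
      2 * (∑ b ∈ range p.B, p.N b) + p.B * p.d + 2 * n ≤ 5000 * n := by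
  have hL0 : 0 < L := by linarith
  have hL1 : 1 ≤ L := by linarith
  have hLp : ∀ k : ℕ, 1 ≤ L ^ k := fun k => one_le_pow₀ hL1
  have hy30 : (10 : ℝ) ^ 30 ≤ y := by
    have := hLp 8
    have : (10 : ℝ) ^ 30 * 1 ≤ 10 ^ 30 * L ^ 8 := mul_le_mul_of_nonneg_left this (by norm_num)
    linarith
  have hy1 : 1 ≤ y := by
    have : (1 : ℝ) ≤ 10 ^ 30 := by norm_num
    linarith
  have hyn : y ≤ n := by
    rw [← hy]
    calc y = y ^ 1 := (pow_one y).symm
      _ ≤ y ^ 4 := pow_le_pow_right₀ hy1 (by norm_num)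
  have hnR : (0 : ℝ) < n := by linarith
  have hn0 : 0 < n := by exact_mod_cast hnR
  have hn2 : 2 ≤ n := by
    have : (2 : ℝ) ≤ n := by
      have : (2 : ℝ) ≤ 10 ^ 30 := by norm_num
      linarith
    exact_mod_cast this
  have hlogy : Real.log y = L / 4 := by
    rw [hL, ← hy, Real.log_pow]; push_cast; ring
  -- the growth rate
  set η : ℝ := 1 / (10 ^ 5 * L) with hη
  have hη0 : 0 < η := by positivity
  have hηL : η * L = 1 / 10 ^ 5 := by rw [hη]; field_simp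
  have hη1 : η ≤ 1 / 700000 := by
    rw [hη, div_le_div_iff₀ (by positivity) (by norm_num)]
    linarith
  have hlogη : η / 2 ≤ Real.log (1 + η) := by
    have h := Real.one_sub_inv_le_log_of_pos (show 0 < 1 + η by linarith)
    have : η / 2 ≤ 1 - (1 + η)⁻¹ := by
      rw [show 1 - (1 + η)⁻¹ = η / (1 + η) by field_simp; ring]
      apply div_le_div_of_nonneg_left hη0.le (by linarith) (by linarith)
    linarith
  obtain ⟨m, hm1, hm2⟩ := exists_nat_pow_near (x := y ^ 3) (y := 1 + η)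
    (one_le_pow₀ hy1) (by linarith)
  have hmB : (m : ℝ) ≤ 3 / 2 * 10 ^ 5 * L ^ 2 := by
    have h1 := Real.log_le_log (by positivity) hm1
    rw [Real.log_pow, Real.log_pow, hlogy] at h1
    have h2 : (m : ℝ) * (η / 2) ≤ m * Real.log (1 + η) :=
      mul_le_mul_of_nonneg_left hlogη (Nat.cast_nonneg _)
    have h3 : (m : ℝ) * (η / 2) ≤ 3 * (L / 4) := by push_cast at h1; linarith
    have h4 : (m : ℝ) * (η / 2) * (2 * (10 ^ 5 * L)) ≤ 3 * (L / 4) * (2 * (10 ^ 5 * L)) :=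
      mul_le_mul_of_nonneg_right h3 (by positivity)
    have h5 : (m : ℝ) * (η / 2) * (2 * (10 ^ 5 * L)) = m := by
      rw [hη]; field_simp
    rw [h5] at h4
    linarith
  set B : ℕ := m + 1 with hB
  have hB0 : 0 < B := by omega
  have hBR0 : (0 : ℝ) < B := by exact_mod_cast hB0
  have hL2 := hLp 2
  have hBle : (B : ℝ) ≤ 2 * 10 ^ 5 * L ^ 2 := by
    rw [hB]; push_cast
    have : (1 : ℝ) ≤ 1 / 2 * 10 ^ 5 * L ^ 2 := by nlinarith
    linarith
  have hyL2 : 2 * 10 ^ 5 * L ^ 2 * 2 ≤ y := by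
    have h1 : L ^ 2 ≤ L ^ 8 := pow_le_pow_right₀ hL1 (by norm_num)
    have h2 : (2 * 10 ^ 5 * 2 : ℝ) * L ^ 2 ≤ 10 ^ 30 * L ^ 8 := by
      calc (2 * 10 ^ 5 * 2 : ℝ) * L ^ 2 ≤ 10 ^ 30 * L ^ 2 :=
            mul_le_mul_of_nonneg_right (by norm_num) (by positivity)
        _ ≤ 10 ^ 30 * L ^ 8 := mul_le_mul_of_nonneg_left h1 (by norm_num)
    linarith
  have hBn : 2 * (B : ℝ) ≤ n := by linarith
  -- number of registers read
  set d : ℕ := n / B with hd
  have hdB : B * d ≤ n := by rw [hd]; exact Nat.mul_div_le n B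
  have hd1 : (n : ℝ) < (d + 1) * B := by
    have h2 : n < B * (n / B + 1) := Nat.lt_mul_div_succ n hB0
    have h3 : (n : ℝ) < (B : ℝ) * ((n / B : ℕ) + 1) := by exact_mod_cast h2
    rw [hd]; linarith
  have hd2 : (n : ℝ) ≤ 2 * (d * B) := by nlinarith
  have hd0 : 0 < d := by
    rcases Nat.eq_zero_or_pos d with h | h
    · rw [h] at hd2; simp at hd2; linarith
    · exact h
  have hdR : (0 : ℝ) < d := by exact_mod_cast hd0
  -- the pattern parameter
  set b0 : ℕ := ⌈100 * (n : ℝ) * L / (η ^ 2 * d)⌉₊ with hb0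
  have hb0ge : 100 * (n : ℝ) * L ≤ η ^ 2 * d * b0 := by
    have := Nat.le_ceil (100 * (n : ℝ) * L / (η ^ 2 * d))
    rw [div_le_iff₀ (by positivity)] at this
    linarith
  have hb0le : (b0 : ℝ) ≤ 5 * 10 ^ 17 * L ^ 5 := by
    have h1 := (Nat.ceil_lt_add_one (show 0 ≤ 100 * (n : ℝ) * L / (η ^ 2 * d) by positivity)).le
    have h2 : 100 * (n : ℝ) * L / (η ^ 2 * d) ≤ 4 * 10 ^ 17 * L ^ 5 := by
      rw [div_le_iff₀ (by positivity)]
      have h3 : η ^ 2 = 1 / (10 ^ 10 * L ^ 2) := by rw [hη, div_pow, mul_pow]; norm_num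
      have h4 : 4 * 10 ^ 17 * L ^ 5 * (η ^ 2 * d) = 4 * 10 ^ 7 * L ^ 3 * d := by
        have e : L ^ 5 * (1 / (10 ^ 10 * L ^ 2)) = L ^ 3 / 10 ^ 10 := by
          rw [show L ^ 5 = L ^ 3 * L ^ 2 by ring]; field_simp
        rw [h3]
        calc 4 * 10 ^ 17 * L ^ 5 * (1 / (10 ^ 10 * L ^ 2) * (d : ℝ)) =
            4 * 10 ^ 17 * (L ^ 5 * (1 / (10 ^ 10 * L ^ 2))) * d := by ring
          _ = _ := by rw [e]; ring
      rw [h4]
      have h5 : (d : ℝ) * B ≤ d * (2 * 10 ^ 5 * L ^ 2) := mul_le_mul_of_nonneg_left hBle hdR.le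
      have h6 : (n : ℝ) * L ≤ 2 * (d * (2 * 10 ^ 5 * L ^ 2)) * L :=
        mul_le_mul_of_nonneg_right (by linarith) hL0.le
      nlinarith
    have h3 := hLp 5
    have h4 : (1 : ℝ) ≤ 10 ^ 17 * L ^ 5 := by nlinarith
    linarith
  obtain ⟨Γ, hΓ⟩ := exists_pattern n d b0 η hn2 hd0 hη0 (by linarith) (by rw [← hL]; exact hb0ge)
  -- the parameters
  let p : Par n :=
    { B := B
      d := d
      b0 := b0
      η := η
      ε := η
      ε0 := 1 / 32
      N := fun b => ⌈1024 * η * n / (1 + η) ^ b⌉₊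
      Γ := Γ }
  have hub : ∀ b, p.u b = (1 + η) ^ b / n := fun b => rfl
  have hpow : ∀ b : ℕ, 0 < (1 + η) ^ b := fun b => by positivity
  have huB1 : 1 / y < p.u p.B := by
    change 1 / y < (1 + η) ^ (m + 1) / n
    rw [div_lt_div_iff₀ hy0 hnR, one_mul, ← hy]
    calc y ^ 4 = y ^ 3 * y := by ring
      _ < (1 + η) ^ (m + 1) * y := mul_lt_mul_of_pos_right hm2 hy0
  have huB2 : p.u p.B ≤ 2 / y := by
    change (1 + η) ^ (m + 1) / n ≤ 2 / y
    rw [div_le_div_iff₀ hnR hy0, ← hy, pow_succ]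
    have h1 : (1 + η) ^ m * (1 + η) ≤ y ^ 3 * 2 :=
      mul_le_mul hm1 (by linarith) (by linarith) (by positivity)
    calc (1 + η) ^ m * (1 + η) * y ≤ y ^ 3 * 2 * y := mul_le_mul_of_nonneg_right h1 hy0.le
      _ = 2 * y ^ 4 := by ring
  have hu0 : p.u 0 = 1 / n := by rw [hub]; simp
  have hVB : p.V p.B = p.u p.B - 1 / n := by rw [Par.V, hu0]
  have hVB1 : 1 / (2 * y) ≤ p.V p.B := by
    rw [hVB]
    have : (1 : ℝ) / n ≤ 1 / (2 * y) := by
      apply one_div_le_one_div_of_le (by positivity)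
      rw [← hy]
      have : (2 : ℝ) ≤ y ^ 3 := by
        calc (2 : ℝ) ≤ 10 ^ 30 := by norm_num
          _ ≤ y := hy30
          _ = y ^ 1 := (pow_one y).symm
          _ ≤ y ^ 3 := pow_le_pow_right₀ hy1 (by norm_num)
      calc 2 * y ≤ y ^ 3 * y := mul_le_mul_of_nonneg_right this hy0.le
        _ = y ^ 4 := by ring
    have h2 : 1 / y = 1 / (2 * y) + 1 / (2 * y) := by field_simp; norm_num
    linarith
  have hVB0 : 0 < p.V p.B := lt_of_lt_of_le (by positivity) hVB1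
  have hVB2 : p.V p.B ≤ 2 / y := by
    rw [hVB]
    have : (0 : ℝ) < 1 / n := by positivity
    linarith
  have hVuB1 : p.u p.B ≤ 1 := by
    refine huB2.trans ?_
    rw [div_le_one hy0]
    have : (2 : ℝ) ≤ 10 ^ 30 := by norm_num
    linarith
  have hb0V : (b0 : ℝ) * p.V p.B ≤ 1 := by
    have h1 : (b0 : ℝ) * p.V p.B ≤ (5 * 10 ^ 17 * L ^ 5) * (2 / y) :=
      mul_le_mul hb0le hVB2 hVB0.le (by positivity)
    refine h1.trans ?_
    rw [mul_div_assoc', div_le_one hy0]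
    have h2 : L ^ 5 ≤ L ^ 8 := pow_le_pow_right₀ hL1 (by norm_num)
    have h3 : (5 * 10 ^ 17 * 2 : ℝ) * L ^ 5 ≤ 10 ^ 30 * L ^ 8 :=
      mul_le_mul (by norm_num) h2 (by positivity) (by norm_num)
    linarith
  have hBbV : 2 * ((B : ℝ) * b0) * p.V p.B ≤ η := by
    have h1 : (B : ℝ) * b0 ≤ (2 * 10 ^ 5 * L ^ 2) * (5 * 10 ^ 17 * L ^ 5) :=
      mul_le_mul hBle hb0le (by positivity) (by positivity)
    have h2 : 2 * ((B : ℝ) * b0) * p.V p.B ≤
        2 * ((2 * 10 ^ 5 * L ^ 2) * (5 * 10 ^ 17 * L ^ 5)) * (2 / y) :=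
      mul_le_mul (by linarith) hVB2 hVB0.le (by positivity)
    refine h2.trans ?_
    rw [hη, mul_div_assoc', div_le_div_iff₀ hy0 (by positivity)]
    have h3 : 2 * ((2 * 10 ^ 5 * L ^ 2) * (5 * 10 ^ 17 * L ^ 5)) * 2 * (10 ^ 5 * L) =
        (2 * (2 * 10 ^ 5) * (5 * 10 ^ 17) * 2 * 10 ^ 5) * L ^ 8 := by ring
    rw [h3, one_mul]
    refine le_trans ?_ hyL
    exact mul_le_mul_of_nonneg_right (by norm_num) (by positivity)
  have hΨ : p.Ψm ≤ 2 := by
    change 1 + 4 * η + η * p.u p.B ≤ 2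
    have := mul_le_mul_of_nonneg_left hVuB1 hη0.le
    linarith
  set x : ℝ := 1 / (4096 * L) with hx
  have hx0 : 0 < x := by positivity
  have hx2 : 20 * η ≤ x := by
    rw [hx, hη]
    rw [mul_one_div, div_le_div_iff₀ (by positivity) (by positivity)]
    linarith
  have hx3 : x ≤ 1 / 20 := by
    rw [hx]
    apply one_div_le_one_div_of_le (by norm_num)
    linarith
  have hΦ : p.Φm ≤ 1 + 9 * η := by
    have e : p.Φm = 1 + 4 * η + η * p.u p.B + η * (p.Ψm + 1) + 2 * ((B : ℝ) * b0) * p.V p.B := rfl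
    rw [e]
    have h1 := mul_le_mul_of_nonneg_left hVuB1 hη0.le
    have h2 := mul_le_mul_of_nonneg_left hΨ hη0.le
    linarith
  have hNpos : ∀ b, 0 < p.N b := by
    intro b
    change 0 < ⌈1024 * η * n / (1 + η) ^ b⌉₊
    rw [Nat.ceil_pos]
    have := hpow b
    positivity
  have hOK : p.OK x := by
    refine
      { n_pos := hn0
        d_pos := hd0
        B_pos := hB0
        η_pos := hη0
        ε_pos := hη0
        ε_le := ?_
        ε0_pos := ?_
        ε0_le := ?_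
        N_pos := fun b _ => hNpos b
        N_ge := ?_
        pattern := hΓ
        b0V := hb0V
        Φm_le := ?_
        x_pos := hx0
        x_ge := ?_
        x_small := ?_ }
    · change η ≤ 1 / 40
      have : (1 : ℝ) / 700000 ≤ 1 / 40 := by norm_num
      linarith
    · change (0 : ℝ) < 1 / 32; norm_num
    · change (1 : ℝ) / 32 ≤ 1 / 32; exact le_refl _
    · intro b _
      change η ≤ (1 / 32) ^ 2 * ((1 + η) ^ b / n) * (⌈1024 * η * n / (1 + η) ^ b⌉₊ : ℕ)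
      have h1 := Nat.le_ceil (1024 * η * n / (1 + η) ^ b)
      have h2 := hpow b
      have h3 : (1 / 32 : ℝ) ^ 2 * ((1 + η) ^ b / n) * (1024 * η * n / (1 + η) ^ b) = η := by
        field_simp; norm_num
      calc η = (1 / 32 : ℝ) ^ 2 * ((1 + η) ^ b / n) * (1024 * η * n / (1 + η) ^ b) := h3.symm
        _ ≤ _ := mul_le_mul_of_nonneg_left h1 (by positivity)
    · linarith
    · change p.Φm - (1 - 4 * η) ≤ x
      linarith
    · have h1 : (1 / 32 : ℝ) ^ 2 / (2 * x) = 2 * L := by rw [hx]; field_simp; norm_num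
      rw [h1, show -(2 * L) = -L + -L by ring, Real.exp_add, Real.exp_neg, hL, Real.exp_log hnR,
        ← mul_assoc, mul_inv_cancel₀ hnR.ne', one_mul, inv_le_comm₀ hnR (by norm_num)]
      have : ((1 : ℝ) / 640)⁻¹ ≤ 10 ^ 30 := by norm_num
      linarith
  refine ⟨p, x, hOK, ⌈(11 / 10) / p.V p.B⌉₊, ?_, ?_, ?_, ?_⟩
  · rw [Nat.one_le_ceil_iff]; positivity
  · have h1 := (Nat.ceil_lt_add_one (show 0 ≤ (11 / 10) / p.V p.B by positivity)).le
    have h2 : (11 / 10) / p.V p.B ≤ 22 / 10 * y := by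
      rw [div_le_iff₀ hVB0]
      have := mul_le_mul_of_nonneg_left hVB1 (show 0 ≤ 22 / 10 * y by positivity)
      have h3 : 22 / 10 * y * (1 / (2 * y)) = 11 / 10 := by field_simp; norm_num
      linarith
    have h3 : ((⌈(11 / 10) / p.V p.B⌉₊ : ℕ) : ℝ) ≤ 4 * y := by linarith
    have h4 := pow_le_pow_left₀ (Nat.cast_nonneg _) h3 3
    have h5 : (4 * y) ^ 3 ≤ n := by
      rw [← hy]
      have : (64 : ℝ) ≤ y := by
        have : (64 : ℝ) ≤ 10 ^ 30 := by norm_num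
        linarith
      calc (4 * y) ^ 3 = 64 * y ^ 3 := by ring
        _ ≤ y * y ^ 3 := mul_le_mul_of_nonneg_right this (by positivity)
        _ = y ^ 4 := by ring
    exact_mod_cast h4.trans h5
  · have := Nat.le_ceil ((11 / 10) / p.V p.B)
    rw [div_le_iff₀ hVB0] at this
    exact this
  · -- the number of steps
    have hN : ∑ b ∈ range p.B, (p.N b : ℝ) ≤ 1025 * n + B := by
      have h1 : ∀ b ∈ range p.B, (p.N b : ℝ) ≤ 1024 * η * n * ((1 + η)⁻¹) ^ b + 1 := by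
        intro b _
        have h2 := (Nat.ceil_lt_add_one (show 0 ≤ 1024 * η * n / (1 + η) ^ b by
          have := hpow b; positivity)).le
        rw [inv_pow]
        exact h2
      refine (Finset.sum_le_sum h1).trans ?_
      rw [Finset.sum_add_distrib, ← Finset.mul_sum, Finset.sum_const, card_range, nsmul_eq_mul,
        mul_one]
      have h3 : (1 - (1 + η)⁻¹) * ∑ b ∈ range p.B, ((1 + η)⁻¹) ^ b ≤ 1 := by
        rw [mul_neg_geom_sum]
        have : 0 ≤ ((1 + η)⁻¹) ^ p.B := by positivity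
        linarith
      have h4 : 1 - (1 + η)⁻¹ = η / (1 + η) := by field_simp; ring
      rw [h4] at h3
      have h5 : η * ∑ b ∈ range p.B, ((1 + η)⁻¹) ^ b ≤ 1 + η := by
        have := mul_le_mul_of_nonneg_left h3 (show 0 ≤ 1 + η by linarith)
        have e : (1 + η) * (η / (1 + η) * ∑ b ∈ range p.B, ((1 + η)⁻¹) ^ b) =
          η * ∑ b ∈ range p.B, ((1 + η)⁻¹) ^ b := by field_simp
        rw [e] at this
        linarith
      have h6 : 1024 * η * n * ∑ b ∈ range p.B, ((1 + η)⁻¹) ^ b ≤ 1024 * n * (1 + η) := by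
        have := mul_le_mul_of_nonneg_left h5 (show 0 ≤ 1024 * (n : ℝ) by positivity)
        linarith
      have h7 : 1024 * (n : ℝ) * (1 + η) ≤ 1025 * n := by nlinarith
      change _ + (B : ℝ) ≤ _
      linarith
    have hfin : ((2 * (∑ b ∈ range p.B, p.N b) + p.B * p.d + 2 * n : ℕ) : ℝ) ≤
        ((5000 * n : ℕ) : ℝ) := by
      push_cast
      have h1 : ((p.B : ℝ)) * p.d ≤ n := by exact_mod_cast hdB
      have h2 : (B : ℝ) ≤ n := by linarith
      linarith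
    exact_mod_cast hfin

/-- All large `n` admit parameters. -/
theorem eventually_par : ∀ᶠ n : ℕ in Filter.atTop, ∃ p : Par n, ∃ x : ℝ, p.OK x ∧
    ∃ K : ℕ, 1 ≤ K ∧ K ^ 3 ≤ n ∧ 11 / 10 ≤ (K : ℝ) * p.V p.B ∧
      2 * (∑ b ∈ range p.B, p.N b) + p.B * p.d + 2 * n ≤ 5000 * n := by
  have h1 : (fun x : ℝ => Real.log x ^ (8 : ℝ)) =o[Filter.atTop] fun x => x ^ (1 / 4 : ℝ) :=
    isLittleO_log_rpow_rpow_atTop 8 (by norm_num)
  have h2 := (h1.bound (show (0 : ℝ) < 1 / 10 ^ 30 by norm_num))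
  have h3 := (Real.tendsto_log_atTop.eventually (Filter.eventually_ge_atTop (7 : ℝ)))
  have h4 := (tendsto_natCast_atTop_atTop (R := ℝ)).eventually
    ((h2.and h3).and (Filter.eventually_gt_atTop 0))
  filter_upwards [h4] with n hn
  obtain ⟨⟨hb, hl⟩, hn0⟩ := hn
  refine exists_par n ((n : ℝ) ^ (1 / 4 : ℝ)) (Real.log n) rfl (Real.rpow_pos_of_pos hn0 _) ?_ hl ?_
  · rw [← Real.rpow_natCast, ← Real.rpow_mul hn0.le]
    norm_num
  · have hl0 : 0 ≤ Real.log n := by linarith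
    rw [Real.norm_of_nonneg (Real.rpow_nonneg hl0 _),
      Real.norm_of_nonneg (Real.rpow_nonneg hn0.le _)] at hb
    have e : Real.log n ^ (8 : ℝ) = Real.log n ^ 8 := by
      rw [show (8 : ℝ) = ((8 : ℕ) : ℝ) by norm_num, Real.rpow_natCast]
    rw [e] at hb
    have := mul_le_mul_of_nonneg_left hb (show (0 : ℝ) ≤ 10 ^ 30 by norm_num)
    calc (10 : ℝ) ^ 30 * Real.log n ^ 8 ≤ _ := this
      _ = (n : ℝ) ^ (1 / 4 : ℝ) := by ring

end RC.SOne
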