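import Pool.Agent.H66.RC.Params
import Pool.Agent.H25.RC.Cert

/-!
# Existence of stage 1
-/

namespace RC

theorem exists_stage1 : ∃ δ : ℝ, 0 < δ ∧ ∃ C : ℕ, ∀ᶠ n : ℕ in Filter.atTop, ∃ K T : ℕ,
    1 ≤ K ∧ K ^ 3 ≤ n ∧ T ≤ C * n ∧ Nonempty (Stage1 n T K δ) := by
  refine ⟨1 / 640, by norm_num, 5000, ?_⟩
  filter_upwards [SOne.eventually_par] with n hn
  obtain ⟨p, x, hOK, K, hK1, hK3, hKV, hT⟩ := hn
  exact ⟨K, _, hK1, hK3, hT, hOK.stage1 hKV le_rfl⟩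

end RC
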